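import Pool.Agent.H10.LN.Main0
import Pool.Graph.R_seed8.Helper853.Zm.Lelong

open scoped Topology ContDiff ComplexOrder ENNReal ComplexConjugate LinearAlgebra.Projectivization
open MeasureTheory Filter

namespace Pool.Agent.Helper853.Zm.Glob

variable {m : ℕ}

lemma G0_chart_zero {x : Fin (m + 2) → ℂ} (hx : x ≠ 0) :
    G0 m (chart 0 x) = ((Vc m x - fsPot x : ℝ) : EReal) := by
  unfold chart
  rw [GG_mk _ (tail_homog_ne hx), LL_homog]
  rfl

/-- the Lelong number of the global function at its pole is zero -/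
theorem lelong_G0 : lelong (G0 m) (pole m) = 0 := by
  apply IsGreatest.csSup_eq
  constructor
  · refine ⟨le_rfl, ?_⟩
    intro i x₀ hx₀
    obtain ⟨rfl, rfl⟩ := chart_eq_pole hx₀
    obtain ⟨r, hr, hnear⟩ := Vc_near (m := m) 0
    refine ⟨0, ?_⟩
    have h1 : ∀ᶠ x in 𝓝[≠] (0 : Fin (m + 2) → ℂ), ‖x‖ ≤ r := by
      apply mem_nhdsWithin_of_mem_nhds
      filter_upwards [Metric.closedBall_mem_nhds (0 : Fin (m + 2) → ℂ) hr] with x hx
      simpa using hx
    filter_upwards [h1, self_mem_nhdsWithin] with x hx hx0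
    rw [G0_chart_zero hx0, EReal.coe_le_coe_iff]
    have h2 := hnear x hx0 hx
    have h3 := fsPot_nonneg x
    linarith
  · rintro γ ⟨-, hγ⟩
    by_contra hcon
    push Not at hcon
    obtain ⟨C, hC⟩ := hγ 0 0 rfl
    -- choose the index
    obtain ⟨k, hk⟩ : ∃ k : ℕ, (1 / 2 : ℝ) ^ (k + 1) < γ := by
      obtain ⟨k, hk⟩ := exists_pow_lt_of_lt_one hcon
        (show (1 / 2 : ℝ) < 1 by norm_num)
      refine ⟨k, lt_of_le_of_lt ?_ hk⟩
      rw [pow_succ]
      have : (0 : ℝ) < (1 / 2) ^ k := by positivity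
      linarith
    have hek : (1 : ℝ) / 2 ^ (k + 1) < γ := by
      rwa [one_div, ← inv_pow, ← one_div]
    have hev := tendsto_xt.eventually hC
    have hev2 := tendsto_xt.eventually (eventually_norm_le (m := m))
    have hlog : Tendsto (fun t : ℝ => (γ - 1 / 2 ^ (k + 1)) * Real.log t)
        (𝓝[>] 0) atBot :=
      Real.tendsto_log_nhdsGT_zero.const_mul_atBot (by linarith)
    have hev3 := hlog.eventually (eventually_lt_atBot
      (1 / 2 ^ (k + 1) * Real.log (ee m k) - Real.log (m + 3) - C))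
    obtain ⟨t, ⟨⟨⟨ht1, ht2⟩, ht3⟩, ht⟩⟩ :=
      (((hev.and hev2).and hev3).and self_mem_nhdsWithin).exists
    have ht : (0 : ℝ) < t := ht
    rw [G0_chart_zero (xt_ne ht), EReal.coe_le_coe_iff, sub_zero, norm_xt ht.le] at ht1
    have h2 := Vc_xt_ge (m := m) ht k
    have h3 := fsPot_le ht2
    nlinarith

end Pool.Agent.Helper853.Zm.Glob
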