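import Pool.Agent.H10.LN.Upper
import Pool.Agent.H10.LN.Zero0

/-! Continuity of the Green functions and their poles. -/

open scoped Topology ContDiff LinearAlgebra.Projectivization
open MeasureTheory Filter Real Pool.Agent.Helper853

namespace Pool.Agent.H10.LN

/-- an omega-psh function that tends to minus infinity at a point is minus infinity there -/
lemma bot_of_tendsto {n : ℕ} (hn : 0 < n) {φ : CP n → EReal} (hφ : IsOmegaPsh φ)
    {i : Fin (n + 1)} {x₀ : Fin n → ℂ}
    (h : ∀ M : ℝ, ∀ᶠ x in 𝓝[≠] x₀, φ (chart i x) ≤ (M : EReal)) : φ (chart i x₀) = ⊥ := by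
  set b : Fin n → ℂ := Pi.single ⟨0, hn⟩ 1 with hb
  have hb1 : ‖b‖ = 1 := by rw [hb, Pi.norm_single, norm_one]
  obtain ⟨D, hD, -⟩ := fsPot_line x₀ b
  have key : ∀ M : ℝ, φ (chart i x₀) + (fsPot x₀ : EReal) ≤ ((M + D : ℝ) : EReal) := by
    intro M
    have hM := h M
    rw [eventually_nhdsWithin_iff, Metric.eventually_nhds_iff] at hM
    obtain ⟨δ, hδ, hM⟩ := hM
    set r : ℝ := min 1 (δ / 2) with hr
    have hr0 : 0 < r := lt_min one_pos (by positivity)
    have h2 := (hφ.2.2 i).2.2 x₀ ((r : ℂ) • b) (M + D)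
    refine h2.trans (le_of_eq ?_)
    congr 1
    have e : ∀ θ : ℝ, (max (φ (chart i (x₀ + Complex.exp (θ * Complex.I) • ((r : ℂ) • b))) +
        (fsPot (x₀ + Complex.exp (θ * Complex.I) • ((r : ℂ) • b)) : EReal))
        ((M + D : ℝ) : EReal)).toReal = M + D := by
      intro θ
      have hne : Complex.exp (θ * Complex.I) • ((r : ℂ) • b) ≠ 0 := by
        apply smul_ne_zero (Complex.exp_ne_zero _)
        apply smul_ne_zero (by exact_mod_cast hr0.ne')
        intro h0
        rw [h0, norm_zero] at hb1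
        exact one_ne_zero hb1.symm
      have hno : ‖Complex.exp (θ * Complex.I) * (r : ℂ)‖ = r := by
        rw [norm_mul, Complex.norm_exp_ofReal_mul_I, one_mul, Complex.norm_real,
          Real.norm_of_nonneg hr0.le]
      have h3 : φ (chart i (x₀ + Complex.exp (θ * Complex.I) • ((r : ℂ) • b))) ≤ (M : EReal) := by
        apply hM
        · rw [dist_eq_norm, add_sub_cancel_left, smul_smul, norm_smul, hno, hb1, mul_one]
          have := min_le_right 1 (δ / 2)
          linarith
        · simpa using hne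
      have h4 : fsPot (x₀ + Complex.exp (θ * Complex.I) • ((r : ℂ) • b)) ≤ D := by
        rw [smul_smul]
        apply hD
        rw [hno]
        exact min_le_left _ _
      have h5 : φ (chart i (x₀ + Complex.exp (θ * Complex.I) • ((r : ℂ) • b))) +
        (fsPot (x₀ + Complex.exp (θ * Complex.I) • ((r : ℂ) • b)) : EReal) ≤
          ((M + D : ℝ) : EReal) := by
        rw [EReal.coe_add]
        exact add_le_add h3 (EReal.coe_le_coe_iff.2 h4)
      rw [max_eq_right h5, EReal.toReal_coe]
    simp only [e]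
    rw [intervalIntegral.integral_const]
    simp only [smul_eq_mul, sub_zero]
    field_simp
  have h3 : φ (chart i x₀) + (fsPot x₀ : EReal) = ⊥ := by
    rw [EReal.eq_bot_iff_forall_lt]
    intro M
    refine lt_of_le_of_lt (key (M - D - 1)) ?_
    rw [EReal.coe_lt_coe_iff]
    linarith
  rcases EReal.add_eq_bot_iff.1 h3 with h4 | h4
  · exact h4
  · exact absurd h4 (EReal.coe_ne_bot _)

variable {m : ℕ}

lemma tail_smul (c : ℂ) (v : Fin (m + 3) → ℂ) : Fin.tail (c • v) = c • Fin.tail v := rfl

/-- a locally uniform limit -/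
lemma continuousOn_limit {hh : ℕ → (Fin (m + 3) → ℂ) → ℝ} {VV : (Fin (m + 3) → ℂ) → ℝ} {cc : ℝ}
    (hcont : ∀ l, ContinuousOn (hh l) {v | Fin.tail v ≠ 0})
    (h : ∀ (l : ℕ) (v : Fin (m + 3) → ℂ), Fin.tail v ≠ 0 → 1 / ((l : ℝ) + 1) ≤ ‖(Fin.tail v : Fin (m + 2) → ℂ)‖ / ‖v‖ →
      |hh l v - VV v| ≤ cc / 2 ^ l) : ContinuousOn VV {v | Fin.tail v ≠ 0} := by
  have hlim : Tendsto (fun l : ℕ => cc / 2 ^ l) atTop (𝓝 0) := by
    have := (tendsto_pow_atTop_nhds_zero_of_lt_one (r := (1 / 2 : ℝ)) (by norm_num)
      (by norm_num)).const_mul cc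
    simp only [mul_zero] at this
    refine this.congr ?_
    intro l
    rw [one_div, inv_pow]
    rfl
  have hop : IsOpen {v : Fin (m + 3) → ℂ | Fin.tail v ≠ 0} := by
    have : Continuous fun v : Fin (m + 3) → ℂ => (Fin.tail v : Fin (m + 2) → ℂ) :=
      continuous_pi fun i => continuous_apply _
    exact isOpen_ne_fun this continuous_const
  have hloc : TendstoLocallyUniformlyOn hh VV atTop {v | Fin.tail v ≠ 0} := by
    rw [Metric.tendstoLocallyUniformlyOn_iff]
    intro ε hε v hv
    have hv' : Fin.tail v ≠ 0 := hv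
    have hv0 : v ≠ 0 := by
      rintro rfl
      exact hv' rfl
    have hq : 0 < ‖(Fin.tail v : Fin (m + 2) → ℂ)‖ / ‖v‖ :=
      div_pos (norm_pos_iff.2 hv') (norm_pos_iff.2 hv0)
    obtain ⟨k, hk⟩ := exists_nat_one_div_lt hq
    have hc : ContinuousAt (fun w : Fin (m + 3) → ℂ => ‖(Fin.tail w : Fin (m + 2) → ℂ)‖ / ‖w‖)
        v := by
      apply ContinuousAt.div
      · exact (continuous_pi fun i => continuous_apply _ :
          Continuous fun v : Fin (m + 3) → ℂ => (Fin.tail v : Fin (m + 2) → ℂ)).norm.continuousAt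
      · exact continuous_norm.continuousAt
      · exact norm_ne_zero_iff.2 hv0
    refine ⟨{w | Fin.tail w ≠ 0 ∧ 1 / ((k : ℝ) + 1) < ‖(Fin.tail w : Fin (m + 2) → ℂ)‖ / ‖w‖},
      ?_, ?_⟩
    · apply mem_nhdsWithin_of_mem_nhds
      exact inter_mem (hop.mem_nhds hv) (hc.eventually (lt_mem_nhds hk))
    · filter_upwards [eventually_ge_atTop k, hlim.eventually (gt_mem_nhds hε)] with l hl hl2 w hw
      rw [dist_comm, Real.dist_eq]
      refine lt_of_le_of_lt (h l w hw.1 ?_) hl2
      refine le_trans ?_ hw.2.le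
      have : (k : ℝ) ≤ l := by exact_mod_cast hl
      gcongr
  exact hloc.continuousOn (Frequently.of_forall hcont)

lemma mk_of_tail_zero {v : Fin (m + 3) → ℂ} (hv : v ≠ 0) (ht : Fin.tail v = 0) :
    (Projectivization.mk ℂ v hv : CP (m + 2)) = pole m := by
  unfold pole chart
  rw [Projectivization.mk_eq_mk_iff']
  refine ⟨v 0, ?_⟩
  ext k
  refine Fin.cases ?_ (fun j => ?_) k
  · simp [homog]
  · have h1 := congrFun ht j
    simp only [Fin.tail, Pi.zero_apply] at h1
    simp only [Pi.smul_apply, smul_eq_mul]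
    rw [homog_succ_apply, h1]
    simp

lemma tail_ne_of_ne_pole {v : Fin (m + 3) → ℂ} (hv : v ≠ 0)
    (h : (Projectivization.mk ℂ v hv : CP (m + 2)) ≠ pole m) : Fin.tail v ≠ 0 :=
  fun ht => h (mk_of_tail_zero hv ht)

/-- the continuity criterion -/
lemma continuous_of_pot {f : CP (m + 2) → EReal} (hf : UpperSemicontinuous f)
    {W : (Fin (m + 3) → ℂ) → ℝ} (hW : ContinuousOn W {v | Fin.tail v ≠ 0})
    (h : ∀ (v : Fin (m + 3) → ℂ) (hv : v ≠ 0), Fin.tail v ≠ 0 →
      f (Projectivization.mk ℂ v hv) = (W v : EReal)) (hbot : f (pole m) = ⊥) :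
    Continuous f ∧ ∀ p, f p = ⊥ ↔ p = pole m := by
  have hop : IsOpen {v : Fin (m + 3) → ℂ | Fin.tail v ≠ 0} := by
    have : Continuous fun v : Fin (m + 3) → ℂ => (Fin.tail v : Fin (m + 2) → ℂ) :=
      continuous_pi fun i => continuous_apply _
    exact isOpen_ne_fun this continuous_const
  have hpt : Fin.tail (homog (0 : Fin (m + 3)) (0 : Fin (m + 2) → ℂ)) = 0 := tail_homog 0
  have hnp : ∀ (v : Fin (m + 3) → ℂ) (hv : v ≠ 0), Fin.tail v ≠ 0 →
      (Projectivization.mk ℂ v hv : CP (m + 2)) ≠ pole m := by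
    intro v hv ht he
    unfold pole chart at he
    rw [Projectivization.mk_eq_mk_iff'] at he
    obtain ⟨c, hc⟩ := he
    apply ht
    rw [← hc, tail_smul, hpt, smul_zero]
  constructor
  · rw [continuous_iff_continuousAt]
    intro p
    by_cases hp : p = pole m
    · subst hp
      have h1 : Tendsto f (𝓝 (pole m)) (𝓝 ⊥) := by
        rw [EReal.tendsto_nhds_bot_iff_real]
        intro M
        have h0 : f (pole m) < (M : EReal) := by rw [hbot]; exact EReal.bot_lt_coe M
        exact hf (pole m) (M : EReal) h0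
      have h2 : ContinuousAt f (pole m) := by
        unfold ContinuousAt
        rw [hbot]
        exact h1
      exact h2
    · -- off the pole
      induction p using Projectivization.ind with
      | h v hv =>
        have ht := tail_ne_of_ne_pole hv hp
        have hq : Topology.IsQuotientMap
          (Quotient.mk (projectivizationSetoid ℂ (Fin (m + 3) → ℂ))) := isQuotientMap_quotient_mk'
        intro U hU
        obtain ⟨U', hU', hU'o, hU'm⟩ := mem_nhds_iff.1 hU
        set O : Set (CP (m + 2)) := {p | p ≠ pole m ∧ f p ∈ U'} with hO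
        have hOo : IsOpen O := by
          have h1 : IsOpen ((Quotient.mk (projectivizationSetoid ℂ (Fin (m + 3) → ℂ))) ⁻¹' O) := by
            have h2 : ContinuousOn (fun w : {v : Fin (m + 3) → ℂ // v ≠ 0} =>
                ((W w.1 : ℝ) : EReal)) {w | Fin.tail w.1 ≠ 0} :=
              continuous_coe_real_ereal.comp_continuousOn
                (hW.comp continuous_subtype_val.continuousOn (fun w hw => hw))
            have h3 : IsOpen {w : {v : Fin (m + 3) → ℂ // v ≠ 0} | Fin.tail w.1 ≠ 0} :=
              hop.preimage continuous_subtype_val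
            have h4 := (continuousOn_open_iff h3).1 h2 U' hU'o
            have e : ((Quotient.mk (projectivizationSetoid ℂ (Fin (m + 3) → ℂ))) ⁻¹' O) =
                {w : {v : Fin (m + 3) → ℂ // v ≠ 0} | Fin.tail w.1 ≠ 0} ∩
                (fun w : {v : Fin (m + 3) → ℂ // v ≠ 0} => ((W w.1 : ℝ) : EReal)) ⁻¹' U' := by
              ext w
              constructor
              · rintro ⟨h5, h6⟩
                have h7 : Fin.tail w.1 ≠ 0 := tail_ne_of_ne_pole w.2 h5
                refine ⟨h7, ?_⟩
                have h8 := h w.1 w.2 h7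
                change f (Projectivization.mk ℂ w.1 w.2) ∈ U' at h6
                rw [h8] at h6
                exact h6
              · rintro ⟨h5, h6⟩
                refine ⟨hnp w.1 w.2 h5, ?_⟩
                have h8 := h w.1 w.2 h5
                change f (Projectivization.mk ℂ w.1 w.2) ∈ U'
                rw [h8]
                exact h6
            rw [e]
            exact h4
          exact hq.isOpen_preimage.1 h1
        have hmem : (Projectivization.mk ℂ v hv : CP (m + 2)) ∈ O := ⟨hp, hU'm⟩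
        exact mem_map.2 (mem_of_superset (hOo.mem_nhds hmem) fun q hq' => hU' hq'.2)
  · intro p
    constructor
    · intro hp
      by_contra hne
      induction p using Projectivization.ind with
      | h v hv =>
        rw [h v hv (tail_ne_of_ne_pole hv hne)] at hp
        exact EReal.coe_ne_bot _ hp
    · rintro rfl
      exact hbot

lemma continuousOn_LL : ContinuousOn (LL : (Fin (m + 3) → ℂ) → ℝ) {v | Fin.tail v ≠ 0} := by
  unfold LL
  apply continuousOn_const.mul
  apply ContinuousOn.log
  · fun_prop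
  · intro v hv
    apply (sum_sq_pos _).ne'
    rintro rfl
    exact hv rfl

/-- the first family -/
theorem continuous_GG {ν : ℝ} (h0 : 0 < ν) (h1 : ν ≤ 1) :
    Continuous (GG m ν) ∧ ∀ p, GG m ν p = ⊥ ↔ p = pole m := by
  have hW : ContinuousOn (VV m ν) {v | Fin.tail v ≠ 0} := by
    apply continuousOn_limit (hh := hh m ν) (cc := cc m)
    · intro l
      unfold hh
      apply continuousOn_const.mul
      apply ContinuousOn.log
      · exact (contDiff_sumSq (contDiff_Fk (good_all h0 h1 l).1)).continuous.continuousOn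
      · intro v hv
        exact (SS_pos h0 h1 l hv).ne'
    · intro l v ht hq
      have hv : v ≠ 0 := by
        rintro rfl
        exact ht rfl
      obtain ⟨c, y, hc, hcn, hy, rfl⟩ := exists_sphere_rep hv
      have hty : Fin.tail y ≠ 0 := by
        intro h
        apply ht
        rw [tail_smul, h, smul_zero]
      rw [hh_smul h0 h1 l hc hty, VV_smul h0 h1 hc hty, add_sub_add_left_eq_sub]
      apply hh_sub_VV h0 h1
      refine ⟨hy, ?_⟩
      rw [tail_smul, norm_smul, norm_smul, hy, mul_one, mul_div_assoc] at hq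
      have hc' : ‖c‖ ≠ 0 := norm_ne_zero_iff.2 hc
      rwa [mul_div_cancel₀ _ hc'] at hq
  refine continuous_of_pot (isOmegaPsh_GG h0 h1).2.1 (hW.sub continuousOn_LL)
    (fun v hv ht => GG_mk h0 h1 hv ht) ?_
  apply bot_of_tendsto (by omega) (isOmegaPsh_GG h0 h1)
  intro M
  have hlog : Tendsto (fun x : Fin (m + 2) → ℂ => ν * Real.log ‖x‖ +
      (Real.log (m + 2) + Real.log 2)) (𝓝[≠] 0) atBot := by
    apply tendsto_atBot_add_const_right
    apply Tendsto.const_mul_atBot h0
    exact Real.tendsto_log_nhdsNE_zero.comp (by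
      have := tendsto_norm_nhdsNE_zero (E := Fin (m + 2) → ℂ)
      exact this.mono_right (nhdsWithin_mono _ (fun x hx => (ne_of_gt hx : x ≠ 0))))
  filter_upwards [eventually_norm_le, self_mem_nhdsWithin,
    hlog.eventually (eventually_le_atBot M)] with x hx hx0 hxM
  rw [GG_chart_zero h0 h1 hx0, EReal.coe_le_coe_iff]
  have h2 := VV_near (m := m) h0 h1 hx0 hx
  have h3 := fsPot_nonneg x
  linarith

end Pool.Agent.H10.LN

namespace Pool.Agent.Helper853.Zm.Glob

open Pool.Agent.H10.LN

variable {m : ℕ}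

/-- the function with Lelong number zero -/
theorem continuous_G0 : Continuous (G0 m) ∧ ∀ p, G0 m p = ⊥ ↔ p = pole m := by
  have hW : ContinuousOn (VV m) {v | Fin.tail v ≠ 0} := by
    apply continuousOn_limit (hh := hh m) (cc := cc m)
    · intro l
      unfold hh
      apply continuousOn_const.mul
      apply ContinuousOn.log
      · exact (contDiff_sumSq (contDiff_Fk (good_all l).1)).continuous.continuousOn
      · intro v hv
        exact (SS_pos l hv).ne'
    · intro l v ht hq
      have hv : v ≠ 0 := by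
        rintro rfl
        exact ht rfl
      obtain ⟨c, y, hc, hcn, hy, rfl⟩ := exists_sphere_rep hv
      have hty : Fin.tail y ≠ 0 := by
        intro h
        apply ht
        rw [tail_smul, h, smul_zero]
      rw [hh_smul l hc hty, VV_smul hc hty, add_sub_add_left_eq_sub]
      apply hh_sub_VV
      refine ⟨hy, ?_⟩
      rw [tail_smul, norm_smul, norm_smul, hy, mul_one, mul_div_assoc] at hq
      have hc' : ‖c‖ ≠ 0 := norm_ne_zero_iff.2 hc
      rwa [mul_div_cancel₀ _ hc'] at hq
  refine continuous_of_pot isOmegaPsh_GG.2.1 (hW.sub continuousOn_LL)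
    (fun v hv ht => GG_mk hv ht) ?_
  apply bot_of_tendsto (by omega) isOmegaPsh_GG
  intro M
  obtain ⟨r, hr, hnear⟩ := Vc_near (m := m) M
  have h1 : ∀ᶠ x in 𝓝[≠] (0 : Fin (m + 2) → ℂ), ‖x‖ ≤ r := by
    apply mem_nhdsWithin_of_mem_nhds
    filter_upwards [Metric.closedBall_mem_nhds (0 : Fin (m + 2) → ℂ) hr] with x hx
    simpa using hx
  filter_upwards [h1, self_mem_nhdsWithin] with x hx hx0
  rw [G0_chart_zero hx0, EReal.coe_le_coe_iff]
  have h2 := hnear x hx0 hx
  have h3 := fsPot_nonneg x
  linarith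

end Pool.Agent.Helper853.Zm.Glob
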