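import Pool.Agent.H10.LN.Proj0

open scoped Topology ContDiff ComplexOrder ENNReal ComplexConjugate LinearAlgebra.Projectivization
open MeasureTheory Filter

namespace Pool.Agent.Helper853.Zm.Glob

variable {m : ℕ}

/-- uniform convergence away from the pole (Dini) -/
lemma uniform_close {u : ℕ → CP (m + 2) → ℝ}
    (hu : DecreasesTo u (G0 m)) (k : ℕ) {δ : ℝ} (hδ : 0 < δ) :
    ∃ N, ∀ j ≥ N, ∀ x : Fin (m + 2) → ℂ, 1 / ((k : ℝ) + 1) ≤ ‖x‖ →
      |pot (u j) x - VV m (homog 0 x)| ≤ δ := by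
  have hcs : CompactSpace (Kset m k) := isCompact_iff_compactSpace.mp (isCompact_Kset k)
  have hne : ∀ y : Kset m k, (y : Fin (m + 3) → ℂ) ≠ 0 := fun y => sphere_ne_zero y.2
  -- continuity of the limit
  have hcontV : Continuous fun y : Kset m k => VV m (y : Fin (m + 3) → ℂ) := by
    have hun : TendstoUniformly (fun l (y : Kset m k) => hh m l (y : Fin (m + 3) → ℂ))
        (fun y : Kset m k => VV m (y : Fin (m + 3) → ℂ)) atTop := by
      rw [Metric.tendstoUniformly_iff]
      intro ε hε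
      have hlim : Tendsto (fun l : ℕ => cc m / 2 ^ l) atTop (𝓝 0) := by
        have := (tendsto_pow_atTop_nhds_zero_of_lt_one (r := (1 / 2 : ℝ)) (by norm_num)
          (by norm_num)).const_mul (cc m)
        simp only [mul_zero] at this
        refine this.congr ?_
        intro l
        rw [one_div, inv_pow]
        rfl
      filter_upwards [eventually_ge_atTop k, hlim.eventually (gt_mem_nhds hε)] with l hl hl2 y
      rw [dist_comm, Real.dist_eq]
      exact lt_of_le_of_lt (hh_sub_VV (Kset_mono hl y.2)) hl2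
    apply hun.continuous
    apply Filter.Frequently.of_forall
    intro l
    have hS : Continuous fun y : Kset m k => SS m l (y : Fin (m + 3) → ℂ) :=
      (contDiff_sumSq (contDiff_Fk (good_all l).1)).continuous.comp continuous_subtype_val
    exact continuous_const.mul (hS.log fun y => (SS_pos l (tail_ne_zero y.2)).ne')
  have hcontL : Continuous fun y : Kset m k => LL (y : Fin (m + 3) → ℂ) := by
    have hS : Continuous fun y : Kset m k => ∑ i, ‖(y : Fin (m + 3) → ℂ) i‖ ^ 2 :=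
      continuous_finsetSum _ fun i _ =>
        (((continuous_apply i).comp continuous_subtype_val).norm.pow 2)
    exact continuous_const.mul (hS.log fun y => (sum_sq_pos (hne y)).ne')
  have hunif := Antitone.tendstoUniformly_of_forall_tendsto
    (F := fun j (y : Kset m k) => u j (Projectivization.mk ℂ (y : Fin (m + 3) → ℂ) (hne y)))
    (f := fun y : Kset m k => VV m (y : Fin (m + 3) → ℂ) - LL (y : Fin (m + 3) → ℂ))
    (fun j => (continuous_of_smooth (hu.1 j)).comp (continuous_mk_comp continuous_subtype_val hne))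
    (fun i j hij y => hu.2.1 _ hij) (hcontV.sub hcontL)
    (fun y => by
      have h2 := hu.2.2 (Projectivization.mk ℂ (y : Fin (m + 3) → ℂ) (hne y))
      rw [GG_mk (hne y) (tail_ne_zero y.2)] at h2
      exact EReal.tendsto_coe.mp h2)
  rw [Metric.tendstoUniformly_iff] at hunif
  obtain ⟨N, hN⟩ := eventually_atTop.mp (hunif δ hδ)
  refine ⟨N, ?_⟩
  intro j hj x hx
  obtain ⟨c, y, hc, hy, e⟩ := exists_Kset_rep hx
  have hy0 := sphere_ne_zero hy
  have h2 := hN j hj ⟨y, hy⟩
  rw [dist_comm, Real.dist_eq] at h2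
  simp only at h2
  have e1 : pot (u j) x = u j (Projectivization.mk ℂ y hy0) + (Real.log ‖c‖ + LL y) := by
    unfold pot
    rw [← LL_homog 0 x, ← LL_smul hc hy0, ← e]
    congr 2
    unfold chart
    rw [Projectivization.mk_eq_mk_iff']
    exact ⟨c, e.symm⟩
  have e2 : VV m (homog 0 x) = Real.log ‖c‖ + VV m y := by
    rw [e, VV_smul hc (tail_ne_zero hy)]
  rw [e1, e2]
  have e3 : u j (Projectivization.mk ℂ y hy0) + (Real.log ‖c‖ + LL y) -
      (Real.log ‖c‖ + VV m y) = u j (Projectivization.mk ℂ y hy0) - (VV m y - LL y) := by ring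
  rw [e3]
  exact h2.le

/-- the masses away from the pole tend to zero -/
lemma mass_away {u : ℕ → CP (m + 2) → ℝ}
    (hu : DecreasesTo u (G0 m)) {r : ℝ} (hr : 0 < r) {η : ℝ} (hη : 0 < η) (hη1 : η ≤ 1) :
    ∃ N, ∀ j ≥ N, ∫⁻ x in {x | r ≤ ‖x‖}, ENNReal.ofReal (maDensity (pot (u j)) x) ≤
      ENNReal.ofReal (η * 2 ^ (m + 2)) := by
  -- the constant c₀
  obtain ⟨k₁, hk₁⟩ := exists_nat_one_div_lt hr
  obtain ⟨C₁, hC₁⟩ : ∃ C : ℝ, ∀ x : Fin (m + 2) → ℂ, 1 / ((k₁ : ℝ) + 1) ≤ ‖x‖ →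
      fsPot x - C ≤ VV m (homog 0 x) := fs_sub_le_Vc (m := m) k₁
  set c₀ : ℝ := C₁ + 2 with hc₀
  -- the radius r₁
  obtain ⟨r₂, hr₂, hnear₂⟩ := Vc_near (m := m) (-c₀ - 2)
  set r₁ : ℝ := min r₂ (r / 2) with hr₁
  have hr₁pos : 0 < r₁ := lt_min hr₂ (by positivity)
  have hr₁r : r₁ < r := by
    have : r₁ ≤ r / 2 := min_le_right _ _
    linarith
  have hnear : ∀ x : Fin (m + 2) → ℂ, x ≠ 0 → ‖x‖ ≤ r₁ →
      VV m (homog 0 x) + 2 ≤ fsPot x - c₀ := by
    intro x hx hxr
    have h2 : VV m (homog 0 x) ≤ -c₀ - 2 := hnear₂ x hx (hxr.trans (min_le_left _ _))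
    have h5 : 0 ≤ fsPot x := by
      unfold fsPot
      have : 0 ≤ Real.log (1 + ∑ j, ‖x j‖ ^ 2) := Real.log_nonneg (by
        have : 0 ≤ ∑ j, ‖x j‖ ^ 2 := Finset.sum_nonneg fun j _ => by positivity
        linarith)
      positivity
    linarith
  -- the index k₀ and k
  obtain ⟨k₀, hk₀⟩ := exists_nat_one_div_lt (show 0 < r₁ / 2 by positivity)
  have hlim : Tendsto (fun l : ℕ => cc m / 2 ^ l) atTop (𝓝 0) := by
    have := (tendsto_pow_atTop_nhds_zero_of_lt_one (r := (1 / 2 : ℝ)) (by norm_num)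
      (by norm_num)).const_mul (cc m)
    simp only [mul_zero] at this
    refine this.congr ?_
    intro l
    rw [one_div, inv_pow]
    rfl
  obtain ⟨k, hk, hkη⟩ := ((eventually_ge_atTop k₀).and
    (hlim.eventually (gt_mem_nhds (show (0 : ℝ) < η / 8 by positivity)))).exists
  obtain ⟨N, hN⟩ := uniform_close hu k₀ (show 0 < η / 8 by positivity)
  refine ⟨N, ?_⟩
  intro j hj
  have hkk : (k₀ : ℝ) ≤ k := by exact_mod_cast hk
  have hle : (1 : ℝ) / ((k : ℝ) + 1) ≤ 1 / ((k₀ : ℝ) + 1) := by gcongr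
  have hhc : ∀ x : Fin (m + 2) → ℂ, r₁ / 2 ≤ ‖x‖ →
      |hh m k (homog 0 x) - VV m (homog 0 x)| ≤ η / 8 := by
    intro x hx
    exact (hc_close (hle.trans (hk₀.le.trans hx))).trans hkη.le
  have hNc : ∀ x : Fin (m + 2) → ℂ, r₁ / 2 ≤ ‖x‖ →
      |pot (u j) x - VV m (homog 0 x)| ≤ η / 8 :=
    fun x hx => hN j hj x (hk₀.le.trans hx)
  obtain ⟨Ca, hCa⟩ : ∃ C : ℝ, ∀ x : Fin (m + 2) → ℂ, x ≠ 0 →
      hh m k (homog 0 x) ≤ fsPot x + C := hc_sub_fs_le (m := m) k
  obtain ⟨Cb, hCb⟩ : ∃ C : ℝ, ∀ x : Fin (m + 2) → ℂ, 1 / ((k : ℝ) + 1) ≤ ‖x‖ →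
      fsPot x - C ≤ hh m k (homog 0 x) := fs_sub_le_hc (m := m) k
  obtain ⟨B, hB⟩ := bounded_of_continuous (continuous_of_smooth (hu.1 j))
  have key := small_mass (m := m + 1) (uF := fsPot) (h := fun x => hh m k (homog 0 x))
    (u := pot (u j)) sPsh_fsPot fsPot_tendsto (sPsh_hc k) (det_hc k)
    (hc_atBot k) (Ch := max Ca Cb)
    (fun x hx => (hCa x hx).trans (by linarith [le_max_left Ca Cb])) hr₁pos hr₁r
    (fun x hx => by
      have := hCb x (hle.trans (hk₀.le.trans hx))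
      linarith [le_max_right Ca Cb])
    (sPsh_pot (hu.1 j)) (Cu := B)
    (fun x => by
      unfold pot
      rw [add_sub_cancel_right]
      exact hB _)
    (c₀ := c₀) hη hη1
    (fun x hx => by
      have h2 := hC₁ x (hk₁.le.trans hx)
      have h3 := (abs_le.mp (hhc x (by linarith))).1
      linarith)
    (fun x hx => by
      have h2 := (abs_le.mp (hhc x (by linarith))).2
      have h3 := (abs_le.mp (hNc x (by linarith))).1
      linarith)
    (fun x hx hx' => by
      have hx0 : x ≠ 0 := by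
        rintro rfl
        simp at hx
        linarith
      have h2 := hnear x hx0 hx'
      have h3 := (abs_le.mp (hhc x hx)).2
      linarith)
    (fun x hx hx' => by
      have h2 := (abs_le.mp (hhc x hx)).1
      have h3 := (abs_le.mp (hNc x hx)).2
      linarith)
  have e : ∀ x : Fin (m + 2) → ℂ, ENNReal.ofReal (maDensity (pot (u j)) x) =
      ENNReal.ofReal (kn (m + 2)) * ENNReal.ofReal (dH (pot (u j)) x) := by
    intro x
    rw [maDensity_eq, ENNReal.ofReal_mul (kn_pos _).le]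
  simp_rw [e]
  rw [lintegral_const_mul' _ _ ENNReal.ofReal_ne_top]
  calc ENNReal.ofReal (kn (m + 2)) * ∫⁻ x in {x | r ≤ ‖x‖}, ENNReal.ofReal (dH (pot (u j)) x)
      ≤ ENNReal.ofReal (kn (m + 2)) * (ENNReal.ofReal (η * 2 ^ (m + 1 + 1)) *
        ∫⁻ x : Fin (m + 1 + 1) → ℂ, ENNReal.ofReal (dH fsPot x)) := mul_le_mul' le_rfl key
    _ = ENNReal.ofReal (η * 2 ^ (m + 2)) * (ENNReal.ofReal (kn (m + 2)) *
        ∫⁻ x : Fin (m + 2) → ℂ, ENNReal.ofReal (dH fsPot x)) := by ring
    _ = ENNReal.ofReal (η * 2 ^ (m + 2)) := by rw [kn_fs, mul_one]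

/-- `MA(G)` is the Dirac mass at the pole -/
theorem hasMA_G0 : HasMA (G0 m) (Measure.dirac (pole m)) := by
  refine ⟨isOmegaPsh_GG, inferInstance, ⟨phiG m, decreasesTo_phi⟩, ?_⟩
  intro u hu f hf
  -- the measures in the chart
  set ρ : ℕ → Measure (Fin (m + 2) → ℂ) := fun j =>
    (volume : Measure (Fin (m + 2) → ℂ)).withDensity
      fun x => ENNReal.ofReal (maDensity (pot (u j)) x) with hρ
  have hprob : ∀ j, IsProbabilityMeasure (ρ j) := by
    intro j
    constructor
    rw [hρ]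
    simp only
    rw [withDensity_apply _ MeasurableSet.univ, Measure.restrict_univ]
    have e : ∀ x : Fin (m + 2) → ℂ, ENNReal.ofReal (maDensity (pot (u j)) x) =
        ENNReal.ofReal (kn (m + 2)) * ENNReal.ofReal (dH (pot (u j)) x) := by
      intro x
      rw [maDensity_eq, ENNReal.ofReal_mul (kn_pos _).le]
    simp_rw [e]
    rw [lintegral_const_mul' _ _ ENNReal.ofReal_ne_top]
    obtain ⟨B, hB⟩ := bounded_of_continuous (continuous_of_smooth (hu.1 j))
    have := total_mass_dH (m := m + 1) (sPsh_pot (hu.1 j)) (C := B) (fun x => by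
      unfold pot
      rw [add_sub_cancel_right]
      exact hB _)
    rw [this]
    exact kn_fs (m + 2)
  have hconc : ∀ r : ℝ, 0 < r → Tendsto (fun j => ρ j {x | r ≤ ‖x‖}) atTop (𝓝 0) := by
    intro r hr
    rw [ENNReal.tendsto_atTop_zero]
    intro ε hε
    have hm : MeasurableSet {x : Fin (m + 2) → ℂ | r ≤ ‖x‖} :=
      (isClosed_le continuous_const continuous_norm).measurableSet
    -- choose η
    obtain ⟨ε', hε', hεε⟩ : ∃ ε' : ℝ, 0 < ε' ∧ ENNReal.ofReal ε' ≤ ε := by
      by_cases htop : ε = ⊤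
      · exact ⟨1, one_pos, by rw [htop]; exact le_top⟩
      · exact ⟨ε.toReal, ENNReal.toReal_pos hε.ne' htop, (ENNReal.ofReal_toReal htop).le⟩
    set η : ℝ := min 1 (ε' / 2 ^ (m + 2)) with hη
    have hηpos : 0 < η := lt_min one_pos (by positivity)
    obtain ⟨N, hN⟩ := mass_away hu hr hηpos (min_le_left _ _)
    refine ⟨N, ?_⟩
    intro j hj
    simp only [hρ]
    rw [withDensity_apply _ hm]
    refine (hN j hj).trans (le_trans ?_ hεε)
    apply ENNReal.ofReal_le_ofReal
    have : η ≤ ε' / 2 ^ (m + 2) := min_le_right _ _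
    calc η * 2 ^ (m + 2) ≤ ε' / 2 ^ (m + 2) * 2 ^ (m + 2) := by gcongr
      _ = ε' := by field_simp
  obtain ⟨B, hB⟩ := bounded_of_continuous hf
  have hlim := tendsto_of_concentration hprob (g := fun x => f (chart 0 x))
    (hf.comp (continuous_chart 0)) (B := B) (fun x => hB _) hconc
  have e1 : ∀ j, ∫ p, f p ∂(smoothMA (u j)) = ∫ x, f (chart 0 x) ∂(ρ j) := by
    intro j
    unfold smoothMA
    rw [integral_map (continuous_chart 0).measurable.aemeasurable
      hf.measurable.aestronglyMeasurable]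
    rfl
  have e2 : ∫ p, f p ∂(Measure.dirac (pole m)) = f (chart 0 0) :=
    integral_dirac' f _ hf.measurable.stronglyMeasurable
  simp_rw [e1]
  rw [e2]
  exact hlim

end Pool.Agent.Helper853.Zm.Glob
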