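import Pool.Graph.R_seed8.Helper853.Proj
import Pool.Graph.R_seed8.Helper853.GreenMain
import Pool.Graph.R_seed8.Helper853.Zm.Chart

/-! The construction of the library module Helper853.Zm (zero Lelong number), globally on complex
projective space. -/

open scoped Topology ContDiff ComplexOrder ENNReal ComplexConjugate LinearAlgebra.Projectivization
open MeasureTheory Filter

namespace Pool.Agent.Helper853.Zm.Glob

section potentials

variable {m : ℕ}

/-- the approximants on `CP^n` -/
noncomputable def phiG (m : ℕ) (k : ℕ) (p : CP (m + 2)) : ℝ :=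
  vv m k p.rep - LL p.rep

lemma phi_mk (k : ℕ) {x : Fin (m + 3) → ℂ} (hx : x ≠ 0) :
    phiG m k (Projectivization.mk ℂ x hx) = vv m k x - LL x := by
  obtain ⟨a, ha⟩ := Projectivization.exists_smul_eq_mk_rep ℂ x hx
  unfold phiG
  rw [← ha]
  have h2 : (a : ℂ) ≠ 0 := a.ne_zero
  have e : a • x = (a : ℂ) • x := rfl
  rw [e, vv_smul k h2 hx, LL_smul h2 hx]
  ring

lemma phi_chart (k : ℕ) (i : Fin (m + 3)) (x : Fin (m + 2) → ℂ) :
    phiG m k (chart i x) + fsPot x = vv m k (homog i x) := by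
  unfold chart
  rw [phi_mk, LL_homog]
  ring

/-- the holomorphic functions whose squares sum to `T_k` -/
noncomputable def GkG (m : ℕ) (k : ℕ) (i : Fin (m + 3)) :
    (Fin (m + 2) ⊕ Fin (m + 3)) → (Fin (m + 2) → ℂ) → ℂ
  | Sum.inl j => fun x => Fk (PP m k) k j (homog i x)
  | Sum.inr l => fun x => ((Real.sqrt (dd m k) : ℝ) : ℂ) * (homog i x l) ^ (2 ^ k)

lemma contDiff_Gk (k : ℕ) (i : Fin (m + 3))
    (s : Fin (m + 2) ⊕ Fin (m + 3)) : ContDiff ℂ ∞ (GkG m k i s) := by
  rcases s with j | l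
  · exact (contDiff_Fk (good_all k).1 j).comp (contDiff_homog' i)
  · exact contDiff_const.mul ((contDiff_homog i l).pow _)

lemma sumSq_Gk (k : ℕ) (i : Fin (m + 3)) (x : Fin (m + 2) → ℂ) :
    sumSq (GkG m k i) x = TT m k (homog i x) := by
  unfold sumSq TT
  rw [Fintype.sum_sum_type]
  congr 1
  unfold QQ
  rw [Finset.mul_sum]
  apply Finset.sum_congr rfl
  intro l _
  have hd := (good_all (m := m) k).2.1
  simp only [GkG, norm_mul, norm_pow, Complex.norm_real]
  rw [Real.norm_of_nonneg (Real.sqrt_nonneg _), mul_pow, Real.sq_sqrt hd.le, ← pow_mul]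
  congr 2
  ring

lemma vv_homog_eq (k : ℕ) (i : Fin (m + 3)) :
    (fun x : Fin (m + 2) → ℂ => vv m k (homog i x)) =
      fun x => 1 / (2 * 2 ^ k) * Real.log (sumSq (GkG m k i) x) := by
  ext x
  rw [sumSq_Gk]
  rfl

lemma sumSq_Gk_pos (k : ℕ) (i : Fin (m + 3)) (x : Fin (m + 2) → ℂ) :
    0 < sumSq (GkG m k i) x := by
  rw [sumSq_Gk]
  exact TT_pos k (homog_ne_zero i x)

lemma contDiff_vv_homog (k : ℕ) (i : Fin (m + 3)) :
    ContDiff ℝ ∞ fun x : Fin (m + 2) → ℂ => vv m k (homog i x) := by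
  rw [vv_homog_eq]
  exact contDiff_const.mul ((contDiff_sumSq (contDiff_Gk k i)).log
    fun x => (sumSq_Gk_pos k i x).ne')

lemma subMean_vv_homog (k : ℕ) (i : Fin (m + 3)) :
    SubMean fun x : Fin (m + 2) → ℂ => vv m k (homog i x) := by
  rw [vv_homog_eq]
  exact subMean_log_sumSq (contDiff_Gk k i) (sumSq_Gk_pos k i) (by positivity)

lemma contDiff_phi_chart (k : ℕ) (i : Fin (m + 3)) :
    ContDiff ℝ ∞ fun x : Fin (m + 2) → ℂ => phiG m k (chart i x) := by
  have e : (fun x : Fin (m + 2) → ℂ => phiG m k (chart i x)) =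
      fun x => vv m k (homog i x) - fsPot x := by
    ext x
    rw [← phi_chart]
    ring
  rw [e]
  exact (contDiff_vv_homog k i).sub (contDiffOn_univ.mp sPsh_fsPot.1)

lemma continuous_phi (k : ℕ) : Continuous (phiG m k) :=
  continuous_of_charts fun i => (contDiff_phi_chart k i).continuous

/-- the Green function -/
noncomputable def G0 (m : ℕ) (p : CP (m + 2)) : EReal := ⨅ k, (phiG m k p : EReal)

lemma GG_chart (i : Fin (m + 3)) (x : Fin (m + 2) → ℂ) :
    G0 m (chart i x) + (fsPot x : EReal) = ⨅ k, (vv m k (homog i x) : EReal) := by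
  unfold G0
  rw [iInf_add_coe]
  congr 1
  ext k
  rw [phi_chart]

lemma phi_antitone (p : CP (m + 2)) :
    Antitone fun k => phiG m k p := by
  intro k l hkl
  have := vv_antitone (m := m) p.rep_nonzero hkl
  unfold phiG
  simp only at this ⊢
  linarith

lemma iInf_eq_VV {x : Fin (m + 3) → ℂ} (ht : Fin.tail x ≠ 0) (c : ℝ) :
    (⨅ k, ((vv m k x - c : ℝ) : EReal)) = ((VV m x - c : ℝ) : EReal) := by
  have hx : x ≠ 0 := by
    rintro rfl
    exact ht rfl
  have h2 : Tendsto (fun k => ((vv m k x - c : ℝ) : EReal)) atTop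
      (𝓝 (((VV m x - c : ℝ)) : EReal)) :=
    (continuous_coe_real_ereal.tendsto _).comp ((VV_tendsto ht).sub_const c)
  have h3 : Antitone fun k => ((vv m k x - c : ℝ) : EReal) := by
    intro k l hkl
    have := vv_antitone (m := m) hx hkl
    simp only at this
    exact EReal.coe_le_coe_iff.mpr (by linarith)
  exact iInf_eq_of_tendsto h3 h2

lemma GG_mk {x : Fin (m + 3) → ℂ} (hx : x ≠ 0)
    (ht : Fin.tail x ≠ 0) :
    G0 m (Projectivization.mk ℂ x hx) = ((VV m x - LL x : ℝ) : EReal) := by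
  unfold G0
  simp_rw [phi_mk]
  exact iInf_eq_VV ht _

lemma isOmegaPsh_GG : IsOmegaPsh (G0 m) := by
  refine ⟨?_, ?_, ?_⟩
  · obtain ⟨x, hx, ht⟩ := exists_tail_ne (m := m)
    refine ⟨Projectivization.mk ℂ x hx, ?_⟩
    rw [GG_mk hx ht]
    exact EReal.coe_ne_bot _
  · apply upperSemicontinuous_iInf
    intro k
    exact (continuous_coe_real_ereal.comp (continuous_phi k)).upperSemicontinuous
  · intro i
    have e : (fun x : Fin (m + 2) → ℂ => G0 m (chart i x) + (fsPot x : EReal)) =
        fun x => ⨅ k, (vv m k (homog i x) : EReal) := by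
      ext x
      exact GG_chart i x
    rw [e]
    apply isPsh_iInf
    · intro k
      exact (contDiff_vv_homog k i).continuous
    · intro x
      exact vv_antitone (homog_ne_zero i x)
    · intro k
      exact subMean_vv_homog k i

lemma isSmoothOmegaPsh_phi (k : ℕ) : IsSmoothOmegaPsh (phiG m k) := by
  refine ⟨fun i => contDiff_phi_chart k i, ?_, ?_, ?_⟩
  · obtain ⟨x, hx, ht⟩ := exists_tail_ne (m := m)
    exact ⟨Projectivization.mk ℂ x hx, by simp⟩
  · exact (continuous_coe_real_ereal.comp (continuous_phi k)).upperSemicontinuous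
  · intro i
    have e : (fun x : Fin (m + 2) → ℂ => ((phiG m k (chart i x) : ℝ) : EReal) +
        (fsPot x : EReal)) = fun x => ((vv m k (homog i x) : ℝ) : EReal) := by
      ext x
      rw [← EReal.coe_add, phi_chart]
    rw [e]
    exact isPsh_of_subMean (contDiff_vv_homog k i).continuous (subMean_vv_homog k i)

lemma decreasesTo_phi : DecreasesTo (phiG m) (G0 m) := by
  refine ⟨isSmoothOmegaPsh_phi, phi_antitone, ?_⟩
  intro p
  apply tendsto_atTop_iInf
  intro k l hkl
  exact EReal.coe_le_coe_iff.mpr (phi_antitone p hkl)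

end potentials

end Pool.Agent.Helper853.Zm.Glob
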