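import Mathlib

/-! A three circles estimate for continuous functions with the sub-mean value property. -/

open Filter Topology MeasureTheory Real

namespace Pool.Agent.H10.LN

lemma circleAverage_normSq (a : ℂ) {ρ : ℝ} (hρ : 0 < ρ) :
    circleAverage (fun t : ℂ => ‖t‖ ^ 2) a ρ = ‖a‖ ^ 2 + ρ ^ 2 := by
  have e : ∀ θ : ℝ, ‖circleMap a ρ θ‖ ^ 2 =
      (‖a‖ ^ 2 + ρ ^ 2) + (2 * ρ * a.re) * cos θ + (2 * ρ * a.im) * sin θ := by
    intro θ
    rw [← Complex.normSq_eq_norm_sq, ← Complex.normSq_eq_norm_sq, Complex.normSq_apply,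
      Complex.normSq_apply]
    simp only [circleMap, Complex.add_re, Complex.add_im, Complex.mul_re, Complex.mul_im,
      Complex.ofReal_re, Complex.ofReal_im, Complex.exp_ofReal_mul_I_re,
      Complex.exp_ofReal_mul_I_im, zero_mul, sub_zero, add_zero]
    nlinarith [Real.sin_sq_add_cos_sq θ]
  rw [circleAverage]
  simp_rw [e]
  rw [intervalIntegral.integral_add, intervalIntegral.integral_add,
    intervalIntegral.integral_const_mul, intervalIntegral.integral_const_mul, integral_cos,
    integral_sin, intervalIntegral.integral_const]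
  · simp
    field_simp
  · exact continuous_const.intervalIntegrable _ _
  · exact (continuous_const.mul continuous_cos).intervalIntegrable _ _
  · exact (continuous_const.add (continuous_const.mul continuous_cos)).intervalIntegrable _ _
  · exact (continuous_const.mul continuous_sin).intervalIntegrable _ _

lemma circleAverage_log (a : ℂ) {ρ : ℝ} (hρ : 0 < ρ) (h : ρ < ‖a‖) :
    circleAverage (fun t : ℂ => log ‖t‖) a ρ = log ‖a‖ := by
  have h1 := circleAverage_log_norm_sub_const_eq_log_radius_add_posLog (a := 0) (c := a)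
    (R := ρ) hρ.ne'
  simp only [sub_zero] at h1
  rw [h1, Real.posLog_eq_log, Real.log_mul (by positivity) (by
    have : 0 < ‖a‖ := hρ.trans h
    exact this.ne'), Real.log_inv]
  · ring
  · rw [abs_of_pos (by have : 0 < ‖a‖ := hρ.trans h; positivity), inv_mul_eq_div,
      one_le_div hρ]
    exact h.le

theorem three_circles {v : ℂ → ℝ} (hc : Continuous v)
    (hs : ∀ (t : ℂ) (ρ : ℝ), 0 < ρ → v t ≤ circleAverage v t ρ) {c r R A B : ℝ} (hr : 0 < r)
    (hr1 : r < 1) (hR : 1 < R) (hA : ∀ t : ℂ, ‖t‖ = r → v t ≤ A)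
    (hB : ∀ t : ℂ, ‖t‖ = R → v t ≤ B) :
    v 1 ≤ max (A - c * log r + 1) (B - c * log R + 1) := by
  set ε : ℝ := 1 / R ^ 2 with hε
  have hR0 : 0 < R := by linarith
  have hεp : 0 < ε := by positivity
  set h : ℂ → ℝ := fun t => v t + (-c) * log ‖t‖ + ε * ‖t‖ ^ 2 with hh
  set K : Set ℂ := {t | r ≤ ‖t‖ ∧ ‖t‖ ≤ R} with hK
  have hKc : IsCompact K := by
    have : K = Metric.closedBall 0 R ∩ {t | r ≤ ‖t‖} := by
      ext t
      simp [hK, and_comm]
    rw [this]
    exact (isCompact_closedBall 0 R).inter_right (isClosed_le continuous_const continuous_norm)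
  have hlogc : ∀ S : Set ℂ, (∀ t ∈ S, t ≠ 0) → ContinuousOn (fun t : ℂ => log ‖t‖) S := by
    intro S hS
    exact continuous_norm.continuousOn.log fun t ht => norm_ne_zero_iff.2 (hS t ht)
  have hcont : ∀ S : Set ℂ, (∀ t ∈ S, t ≠ 0) → ContinuousOn h S := by
    intro S hS
    exact (hc.continuousOn.add (continuousOn_const.mul (hlogc S hS))).add
      (continuousOn_const.mul (continuous_norm.pow 2).continuousOn)
  have hKne : ∀ t ∈ K, t ≠ 0 := by
    rintro t ht rfl
    have := ht.1
    rw [norm_zero] at this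
    linarith
  have h1K : (1 : ℂ) ∈ K := by
    constructor
    · rw [norm_one]; exact hr1.le
    · rw [norm_one]; exact hR.le
  obtain ⟨t, htK, hmax⟩ := hKc.exists_isMaxOn ⟨1, h1K⟩ (hcont K hKne)
  have h1 : v 1 ≤ h t := by
    have h2 : h 1 ≤ h t := hmax h1K
    have h3 : h 1 = v 1 + ε := by simp [hh]
    linarith
  by_cases hcase1 : ‖t‖ = r
  · apply le_trans h1
    apply le_trans _ (le_max_left _ _)
    have h4 : ε * ‖t‖ ^ 2 ≤ 1 := by
      rw [hcase1, hε]
      rw [div_mul_eq_mul_div, one_mul, div_le_one (by positivity)]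
      exact pow_le_pow_left₀ hr.le (by linarith) 2
    have h5 := hA t hcase1
    simp only [hh]
    rw [hcase1] at h4 ⊢
    linarith
  by_cases hcase2 : ‖t‖ = R
  · apply le_trans h1
    apply le_trans _ (le_max_right _ _)
    have h4 : ε * ‖t‖ ^ 2 ≤ 1 := by
      rw [hcase2, hε]
      rw [div_mul_eq_mul_div, one_mul, div_le_one (by positivity)]
    have h5 := hB t hcase2
    simp only [hh]
    rw [hcase2] at h4 ⊢
    linarith
  exfalso
  have hlo : r < ‖t‖ := lt_of_le_of_ne htK.1 (Ne.symm hcase1)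
  have hhi : ‖t‖ < R := lt_of_le_of_ne htK.2 hcase2
  obtain ⟨ρ, hρ, hρ1, hρ2⟩ : ∃ ρ : ℝ, 0 < ρ ∧ ρ < ‖t‖ - r ∧ ρ < R - ‖t‖ := by
    refine ⟨min (‖t‖ - r) (R - ‖t‖) / 2, ?_, ?_, ?_⟩
    · have : 0 < min (‖t‖ - r) (R - ‖t‖) := lt_min (by linarith) (by linarith)
      positivity
    · have h6 := min_le_left (‖t‖ - r) (R - ‖t‖)
      linarith
    · have h6 := min_le_right (‖t‖ - r) (R - ‖t‖)
      linarith
  have hsph : Metric.sphere t |ρ| ⊆ K := by
    intro s hs'
    rw [abs_of_pos hρ, mem_sphere_iff_norm] at hs'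
    have a1 := norm_sub_norm_le t s
    rw [norm_sub_rev] at a1
    have a2 := norm_sub_norm_le s t
    exact ⟨by linarith, by linarith⟩
  have hint : CircleIntegrable h t ρ := by
    apply ContinuousOn.circleIntegrable'
    exact (hcont K hKne).mono hsph
  have hintv : CircleIntegrable v t ρ := ContinuousOn.circleIntegrable' hc.continuousOn
  have hintl : CircleIntegrable (fun t : ℂ => log ‖t‖) t ρ := by
    apply ContinuousOn.circleIntegrable'
    exact (hlogc K hKne).mono hsph
  have hintq : CircleIntegrable (fun t : ℂ => ‖t‖ ^ 2) t ρ :=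
    ContinuousOn.circleIntegrable' (continuous_norm.pow 2).continuousOn
  have havg : circleAverage h t ρ ≤ h t := by
    apply circleAverage_mono_on_of_le_circle hint
    intro s hs'
    exact hmax (hsph hs')
  have hsplit : circleAverage h t ρ = circleAverage v t ρ + (-c) * log ‖t‖ +
      ε * (‖t‖ ^ 2 + ρ ^ 2) := by
    have e1 : h = (v + (-c) • (fun t : ℂ => log ‖t‖)) + ε • (fun t : ℂ => ‖t‖ ^ 2) := by
      ext s
      simp [hh]
    rw [e1, circleAverage_add (hintv.add (hintl.const_smul)) (hintq.const_smul),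
      circleAverage_add hintv (hintl.const_smul), circleAverage_smul, circleAverage_smul,
      circleAverage_log t hρ (by linarith), circleAverage_normSq t hρ]
    simp
  have h7 := hs t ρ hρ
  have h8 : h t = v t + (-c) * log ‖t‖ + ε * ‖t‖ ^ 2 := rfl
  have h9 : 0 < ε * ρ ^ 2 := by positivity
  rw [hsplit, h8] at havg
  nlinarith

end Pool.Agent.H10.LN
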