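import Pool.Agent.H10.LN.Three
import Pool.Graph.R_seed8.Helper853.Proj

/-! The Lelong numbers of an omega-psh function on complex projective space (a decreasing limit of
smooth ones) are at most 1. -/

open scoped Topology ContDiff LinearAlgebra.Projectivization
open MeasureTheory Filter Real Pool.Agent.Helper853

namespace Pool.Agent.H10.LN

variable {n : ℕ}

lemma exists_chart (a : CP n) : ∃ (i : Fin (n + 1)) (x : Fin n → ℂ), chart i x = a := by
  induction a using Projectivization.ind with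
  | h v hv =>
    obtain ⟨i, hi⟩ := Function.ne_iff.mp hv
    exact ⟨i, aff i v, chart_aff hi hv⟩

/-- a psh function that is minus infinity on a circle is so at its centre -/
lemma bot_of_circle {φ : CP n → EReal} (hφ : IsOmegaPsh φ) (j : Fin (n + 1)) (y b : Fin n → ℂ)
    (h : ∀ θ : ℝ, φ (chart j (y + Complex.exp (θ * Complex.I) • b)) = ⊥) :
    φ (chart j y) = ⊥ := by
  have h1 : ∀ M : ℝ, φ (chart j y) + (fsPot y : EReal) ≤ (M : EReal) := by
    intro M
    have h2 := (hφ.2.2 j).2.2 y b M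
    simp only [h, EReal.bot_add] at h2
    refine h2.trans (le_of_eq ?_)
    congr 1
    have e : (max (⊥ : EReal) (M : EReal)).toReal = M := by simp
    simp only [e]
    rw [intervalIntegral.integral_const]
    simp only [smul_eq_mul, sub_zero]
    field_simp
  have h3 : φ (chart j y) + (fsPot y : EReal) = ⊥ := by
    rw [EReal.eq_bot_iff_forall_lt]
    intro M
    refine lt_of_le_of_lt (h1 (M - 1)) ?_
    exact_mod_cast sub_one_lt M
  rcases EReal.add_eq_bot_iff.1 h3 with h4 | h4
  · exact h4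
  · exact absurd h4 (EReal.coe_ne_bot _)

/-- Dini, upper half -/
lemma dini_upper {X : Type*} [TopologicalSpace X] {K : Set X} (hK : IsCompact K)
    {f : ℕ → X → ℝ} (hf : ∀ j, Continuous (f j)) (hanti : ∀ x, Antitone fun j => f j x) {A : ℝ}
    (h : ∀ x ∈ K, ∃ j, f j x < A) : ∃ J, ∀ x ∈ K, f J x < A := by
  obtain ⟨J, hJ⟩ := hK.elim_directed_cover (fun j => {x | f j x < A})
    (fun j => isOpen_lt (hf j) continuous_const)
    (fun x hx => by
      obtain ⟨j, hj⟩ := h x hx
      exact Set.mem_iUnion.2 ⟨j, hj⟩)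
    (by
      intro i j
      refine ⟨max i j, ?_, ?_⟩
      · intro x hx
        exact lt_of_le_of_lt (hanti x (le_max_left i j)) hx
      · intro x hx
        exact lt_of_le_of_lt (hanti x (le_max_right i j)) hx)
  exact ⟨J, fun x hx => hJ hx⟩

lemma fsPot_line (x₀ b : Fin n → ℂ) : ∃ D : ℝ, (∀ t : ℂ, ‖t‖ ≤ 1 → fsPot (x₀ + t • b) ≤ D) ∧
    ∀ t : ℂ, 1 ≤ ‖t‖ → fsPot (x₀ + t • b) ≤ log ‖t‖ + D := by
  set E : ℝ := 1 + n * (‖x₀‖ + ‖b‖) ^ 2 with hE
  have hE0 : 0 < E := by positivity
  have key : ∀ (t : ℂ) (s : ℝ), 1 ≤ s → ‖t‖ ≤ s → fsPot (x₀ + t • b) ≤ log s + 1 / 2 * log E := by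
    intro t s hs hts
    have hs0 : 0 < s := by linarith
    have h1 : ∀ j, ‖(x₀ + t • b) j‖ ^ 2 ≤ (s * (‖x₀‖ + ‖b‖)) ^ 2 := by
      intro j
      apply pow_le_pow_left₀ (norm_nonneg _)
      refine (norm_le_pi_norm _ j).trans ((norm_add_le _ _).trans ?_)
      rw [norm_smul]
      have a1 : ‖x₀‖ ≤ s * ‖x₀‖ := le_mul_of_one_le_left (norm_nonneg _) hs
      have a2 : ‖t‖ * ‖b‖ ≤ s * ‖b‖ := mul_le_mul_of_nonneg_right hts (norm_nonneg _)
      linarith [mul_add s ‖x₀‖ ‖b‖]
    have h2 : 1 + ∑ j, ‖(x₀ + t • b) j‖ ^ 2 ≤ s ^ 2 * E := by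
      have h3 : ∑ j, ‖(x₀ + t • b) j‖ ^ 2 ≤ n * (s * (‖x₀‖ + ‖b‖)) ^ 2 := by
        calc ∑ j, ‖(x₀ + t • b) j‖ ^ 2 ≤ ∑ _j : Fin n, (s * (‖x₀‖ + ‖b‖)) ^ 2 :=
              Finset.sum_le_sum fun j _ => h1 j
          _ = n * (s * (‖x₀‖ + ‖b‖)) ^ 2 := by simp
      have h4 : 1 ≤ s ^ 2 := one_le_pow₀ hs
      have h5 : s ^ 2 * E = s ^ 2 + n * (s * (‖x₀‖ + ‖b‖)) ^ 2 := by rw [hE]; ring
      linarith
    have h0 : 0 < 1 + ∑ j, ‖(x₀ + t • b) j‖ ^ 2 := by
      have : 0 ≤ ∑ j, ‖(x₀ + t • b) j‖ ^ 2 := Finset.sum_nonneg fun j _ => by positivity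
      linarith
    have h6 := Real.log_le_log h0 h2
    rw [Real.log_mul (by positivity) hE0.ne', Real.log_pow] at h6
    unfold fsPot
    push_cast at h6
    linarith
  refine ⟨1 / 2 * log E, ?_, ?_⟩
  · intro t ht
    have := key t 1 le_rfl ht
    rwa [Real.log_one, zero_add] at this
  · intro t ht
    exact key t ‖t‖ ht le_rfl

/-- the function is minus infinity on the punctured chart around a point with a too strong pole -/
lemma bot_near {φ : CP n → EReal} {u : ℕ → CP n → ℝ} (hu : DecreasesTo u φ) {i : Fin (n + 1)}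
    {x₀ : Fin n → ℂ} {γ C : ℝ} (hγ : 1 < γ)
    (hC : ∀ᶠ x in 𝓝[≠] x₀, φ (chart i x) ≤ ((γ * Real.log ‖x - x₀‖ + C : ℝ) : EReal))
    {b : Fin n → ℂ} (hb : b ≠ 0) : φ (chart i (x₀ + b)) = ⊥ := by
  obtain ⟨hsm, hanti, hlim⟩ := hu
  have hβ : 0 < ‖b‖ := norm_pos_iff.2 hb
  -- the approximants are above the limit
  have hle : ∀ p j, φ p ≤ (u j p : EReal) := by
    intro p j
    have h1 : Antitone fun j => (u j p : EReal) := fun k l hkl =>
      EReal.coe_le_coe_iff.2 (hanti p hkl)
    exact h1.le_of_tendsto (hlim p) j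
  -- global bound
  have hcont : ∀ j, Continuous (u j) := fun j => continuous_of_charts fun i => ((hsm j).1 i).continuous
  obtain ⟨B, hB⟩ := bounded_of_continuous (hcont 0)
  obtain ⟨D, hD1, hD2⟩ := fsPot_line x₀ b
  -- the functions on the line
  set v : ℕ → ℂ → ℝ := fun j t => u j (chart i (x₀ + t • b)) + fsPot (x₀ + t • b) with hv
  have hline : Continuous fun t : ℂ => x₀ + t • b := by fun_prop
  have hfsc : Continuous (fsPot : (Fin n → ℂ) → ℝ) := by
    unfold fsPot
    have : Continuous fun x : Fin n → ℂ => 1 + ∑ j, ‖x j‖ ^ 2 := by fun_prop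
    refine continuous_const.mul (this.log fun x => ?_)
    have : 0 ≤ ∑ j, ‖x j‖ ^ 2 := Finset.sum_nonneg fun j _ => by positivity
    linarith
  have hvc : ∀ j, Continuous (v j) := fun j =>
    (((hcont j).comp (continuous_chart i)).comp hline).add (hfsc.comp hline)
  have hvanti : ∀ t, Antitone fun j => v j t := by
    intro t k l hkl
    have := hanti (chart i (x₀ + t • b)) hkl
    simp only [hv]
    simp only at this
    linarith
  have hsub : ∀ j (t : ℂ) (ρ : ℝ), 0 < ρ → v j t ≤ circleAverage (v j) t ρ := by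
    intro j t ρ _
    have h1 : SubMean fun x => u j (chart i x) + fsPot x := by
      apply subMean_of_isPsh
      · exact ((hcont j).comp (continuous_chart i)).add hfsc
      · have := (hsm j).2.2.2 i
        have e : (fun x : Fin n → ℂ => ((u j (chart i x) : ℝ) : EReal) + (fsPot x : EReal)) =
            fun x => ((u j (chart i x) + fsPot x : ℝ) : EReal) := by
          ext x
          rw [← EReal.coe_add]
        rw [e] at this
        exact this
    have h2 := h1 (x₀ + t • b) ((ρ : ℂ) • b)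
    rw [circleAverage]
    refine h2.trans (le_of_eq ?_)
    rw [smul_eq_mul]
    congr 1
    apply intervalIntegral.integral_congr
    intro θ _
    have e2 : x₀ + t • b + Complex.exp (θ * Complex.I) • ((ρ : ℂ) • b) =
        x₀ + circleMap t ρ θ • b := by
      rw [circleMap, add_smul, smul_smul, add_assoc, mul_comm]
    simp only [hv]
    rw [e2]
  have hBnd : ∀ j (t : ℂ), u j (chart i (x₀ + t • b)) ≤ B := by
    intro j t
    exact (hanti _ (Nat.zero_le j)).trans ((le_abs_self _).trans (hB _))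
  by_contra hne
  -- the value
  obtain ⟨K, hK⟩ : ∃ K : ℝ, φ (chart i (x₀ + b)) = (K : EReal) := by
    have h1 : φ (chart i (x₀ + b)) ≠ ⊤ := by
      intro h
      have := hle (chart i (x₀ + b)) 0
      rw [h] at this
      exact absurd this (not_le.2 (EReal.coe_lt_top _))
    exact ⟨_, (EReal.coe_toReal h1 hne).symm⟩
  set c : ℝ := (1 + γ) / 2 with hc
  set E1 : ℝ := γ * log ‖b‖ + C + 1 + D + 1 with hE1
  set E2 : ℝ := B + D + 1 with hE2
  -- the key estimate
  rw [eventually_nhdsWithin_iff, Metric.eventually_nhds_iff] at hC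
  obtain ⟨δ, hδ, hC⟩ := hC
  have key : ∀ r R : ℝ, 0 < r → r < 1 → r < δ / ‖b‖ → 1 < R →
      K ≤ max ((γ - c) * log r + E1) ((1 - c) * log R + E2) := by
    intro r R hr hr1 hrδ hR
    obtain ⟨J, hJ⟩ := dini_upper (isCompact_sphere (0 : ℂ) r) hvc hvanti
      (A := γ * log r + γ * log ‖b‖ + C + 1 + D) (by
        intro t ht
        rw [mem_sphere_zero_iff_norm] at ht
        have ht0 : t ≠ 0 := by
          rintro rfl
          rw [norm_zero] at ht
          linarith
        have h1 : φ (chart i (x₀ + t • b)) ≤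
            ((γ * log ‖x₀ + t • b - x₀‖ + C : ℝ) : EReal) := by
          apply hC
          · rw [dist_eq_norm, add_sub_cancel_left, norm_smul, ht]
            rwa [lt_div_iff₀ hβ] at hrδ
          · simp only [Set.mem_compl_iff, Set.mem_singleton_iff, add_eq_left]
            exact smul_ne_zero ht0 hb
        rw [add_sub_cancel_left, norm_smul, ht, Real.log_mul hr.ne' hβ.ne'] at h1
        have h2 : φ (chart i (x₀ + t • b)) < ((γ * log r + γ * log ‖b‖ + C + 1 : ℝ) : EReal) := by
          refine lt_of_le_of_lt h1 ?_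
          rw [EReal.coe_lt_coe_iff]
          linarith [mul_add γ (log r) (log ‖b‖)]
        obtain ⟨j, hj⟩ := ((hlim (chart i (x₀ + t • b))).eventually (gt_mem_nhds h2)).exists
        refine ⟨j, ?_⟩
        have h3 := EReal.coe_lt_coe_iff.1 hj
        have h4 := hD1 t (by rw [ht]; exact hr1.le)
        simp only [hv]
        linarith)
    have h5 := three_circles (hvc J) (hsub J) (c := c) (r := r) (R := R)
      (A := γ * log r + γ * log ‖b‖ + C + 1 + D) (B := B + D + log R) hr hr1 hR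
      (fun t ht => (hJ t (by rwa [mem_sphere_zero_iff_norm])).le)
      (fun t ht => by
        have h6 := hBnd J t
        have h7 := hD2 t (by rw [ht]; exact hR.le)
        rw [ht] at h7
        simp only [hv]
        linarith)
    have h8 : K ≤ v J 1 := by
      have h9 := hle (chart i (x₀ + b)) J
      rw [hK, EReal.coe_le_coe_iff] at h9
      have h10 : 0 ≤ fsPot (x₀ + b) := by
        unfold fsPot
        have : 0 ≤ Real.log (1 + ∑ j, ‖(x₀ + b) j‖ ^ 2) := Real.log_nonneg (by
          have : 0 ≤ ∑ j, ‖(x₀ + b) j‖ ^ 2 := Finset.sum_nonneg fun j _ => by positivity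
          linarith)
        positivity
      simp only [hv, one_smul]
      linarith
    refine (h8.trans h5).trans (le_of_eq ?_)
    congr 1
    · rw [hE1]; ring
    · rw [hE2]; ring
  -- the choice of r and R
  have hr' : Tendsto (fun r : ℝ => (γ - c) * log r + E1) (𝓝[>] 0) atBot :=
    tendsto_atBot_add_const_right _ _
      (Real.tendsto_log_nhdsGT_zero.const_mul_atBot (by rw [hc]; linarith))
  have hR' : Tendsto (fun R : ℝ => (1 - c) * log R + E2) atTop atBot :=
    tendsto_atBot_add_const_right _ _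
      (Real.tendsto_log_atTop.const_mul_atTop_of_neg (by rw [hc]; linarith))
  obtain ⟨r, hr1, hr2, hr3⟩ := ((hr'.eventually (eventually_lt_atBot K)).and
    (Ioo_mem_nhdsGT (show (0 : ℝ) < min 1 (δ / ‖b‖) from lt_min one_pos (by positivity)))).exists
  obtain ⟨R, hR1, hR2⟩ := ((hR'.eventually (eventually_lt_atBot K)).and
    (eventually_gt_atTop (1 : ℝ))).exists
  have h11 := key r R hr2 (lt_of_lt_of_le hr3 (min_le_left _ _))
    (lt_of_lt_of_le hr3 (min_le_right _ _)) hR2
  exact absurd h11 (not_le.2 (max_lt hr1 hR1))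

/-- Lelong numbers on projective space are at most 1. -/
theorem lelong_le_one {n : ℕ} (hn : 0 < n) {φ : CP n → EReal} (hφ : IsOmegaPsh φ)
    (hd : ∃ u, DecreasesTo u φ) (a : CP n) : lelong φ a ≤ 1 := by
  obtain ⟨u, hu⟩ := hd
  apply Real.sSup_le _ zero_le_one
  rintro γ ⟨hγ0, hγ⟩
  by_contra hcon
  push Not at hcon
  obtain ⟨i, x₀, hx₀⟩ := exists_chart a
  obtain ⟨C, hC⟩ := hγ i x₀ hx₀
  -- all points of the chart
  have h1 : ∀ x, φ (chart i x) = ⊥ := by
    have h2 : ∀ b : Fin n → ℂ, b ≠ 0 → φ (chart i (x₀ + b)) = ⊥ := fun b hb =>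
      bot_near hu hcon hC hb
    intro x
    by_cases hx : x = x₀
    · subst hx
      have hb : (Pi.single ⟨0, hn⟩ 1 : Fin n → ℂ) ≠ 0 := by
        intro h
        have := congrFun h ⟨0, hn⟩
        simp at this
      apply bot_of_circle hφ i x (Pi.single ⟨0, hn⟩ 1)
      intro θ
      exact h2 _ (smul_ne_zero (Complex.exp_ne_zero _) hb)
    · have := h2 (x - x₀) (sub_ne_zero.2 hx)
      rwa [add_sub_cancel] at this
  -- all points
  have h3 : ∀ (j : Fin (n + 1)) (y : Fin n → ℂ), homog j y i ≠ 0 → φ (chart j y) = ⊥ := by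
    intro j y hy
    have h4 := chart_aff hy (homog_ne_zero j y)
    have h5 : chart j y = chart i (aff i (homog j y)) := h4.symm
    rw [h5]
    exact h1 _
  obtain ⟨p, hp⟩ := hφ.1
  apply hp
  obtain ⟨j, y, rfl⟩ := exists_chart p
  by_cases hy : homog j y i ≠ 0
  · exact h3 j y hy
  · push Not at hy
    rcases Fin.eq_self_or_eq_succAbove j i with h | ⟨i', hi'⟩
    · subst h
      simp [homog] at hy
    · apply bot_of_circle hφ j y (Pi.single i' 1)
      intro θ
      apply h3
      rw [hi']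
      rw [hi'] at hy
      simp only [homog, Fin.insertNth_apply_succAbove] at hy ⊢
      simp only [Pi.add_apply, Pi.smul_apply, Pi.single_eq_same, smul_eq_mul, mul_one, hy, zero_add]
      exact Complex.exp_ne_zero _

theorem lelong_mem {n : ℕ} (hn : 0 < n) {φ : CP n → EReal} (hφ : IsOmegaPsh φ)
    (hd : ∃ u, DecreasesTo u φ) (a : CP n) : lelong φ a ∈ Set.Icc (0 : ℝ) 1 :=
  ⟨Real.sSup_nonneg fun _ h => h.1, lelong_le_one hn hφ hd a⟩

end Pool.Agent.H10.LN
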